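import Pool.Agent.Helper610.Bohr.Basic

/-!
# The Fekete-Szegő bound on `M_{α,β}` is not always sharp

At `(α, β) = (4/3, -1/3)` and `λ = 1` the bound `|Φ(f, λ)| ≤ max(μ, |1-λ|) = 3/2` can be improved
to `(3/8) √15`.
-/

namespace Pool.Agent.Results.MP_dfd3b8_an.FeketeSzegoNotSharp

open Complex Metric
open Pool.Agent.Helper610.Bohr (PS coeff conv shiftSeq)

/-- The function `g_{α,β} = α f(z)/z + β z f'(z)/f(z) + (1-α-β)(1 + z f''(z)/f'(z))`, where the
quotients `f(z)/z` and `z f'(z)/f(z)` take the value `1` at `z = 0`, so that `g_{α,β}(0) = 1`. -/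
noncomputable def gfun (α β : ℝ) (f : ℂ → ℂ) (z : ℂ) : ℂ :=
  if z = 0 then 1 else
    (α : ℂ) * (f z / z) + (β : ℂ) * (z * deriv f z / f z)
      + (1 - (α : ℂ) - (β : ℂ)) * (1 + z * iteratedDeriv 2 f z / deriv f z)

/-- The class `M_{α,β}`: `f` is holomorphic on the unit disc with `f(0) = 0`, `f'(0) = 1`, the
function `g_{α,β}` is defined on the disc (`f` has no zero other than `0` when the second term is
present, that is for `β ≠ 0`, and `f'` has no zero when the third term is present, that is for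
`α + β ≠ 1`), and `Re g_{α,β} > (α+β)/2` on the disc. -/
def M (α β : ℝ) : Set (ℂ → ℂ) :=
  {f | DifferentiableOn ℂ f (ball 0 1) ∧ f 0 = 0 ∧ deriv f 0 = 1 ∧
    (β ≠ 0 → ∀ z ∈ ball (0 : ℂ) 1, z ≠ 0 → f z ≠ 0) ∧
    (α + β ≠ 1 → ∀ z ∈ ball (0 : ℂ) 1, deriv f z ≠ 0) ∧
    ∀ z ∈ ball (0 : ℂ) 1, (α + β) / 2 < (gfun α β f z).re}

/-- the parameter region `R` -/
def InR (α β : ℝ) : Prop := α + β < 2 ∧ 5 * α + 4 * β < 6

/-- `μ(α,β) = (2-α-β)/(6-5α-4β)` -/
noncomputable def mu (α β : ℝ) : ℝ := (2 - α - β) / (6 - 5 * α - 4 * β)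

/-- The Fekete-Szegő functional `a_3 - λ a_2²`, with `a_k = f^{(k)}(0)/k!`. -/
noncomputable def Phi (f : ℂ → ℂ) (lam : ℂ) : ℂ :=
  iteratedDeriv 3 f 0 / (Nat.factorial 3 : ℂ)
    - lam * (iteratedDeriv 2 f 0 / (Nat.factorial 2 : ℂ)) ^ 2

/-- the coefficient relation forced by the resonance at the fourth coefficient -/
theorem key_ineq {w1 w2 w3 w4 : ℂ} (hrel : w2 ^ 2 = 2 * w4 - 4 * w3 * w1 + 2 * w2 * w1 ^ 2)
    (hsum : ‖w1‖ ^ 2 + ‖w2‖ ^ 2 + ‖w3‖ ^ 2 + ‖w4‖ ^ 2 ≤ 1) : ‖w2‖ ^ 2 ≤ 15 / 16 := by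
  by_contra hcon
  push Not at hcon
  have h4 : ‖w4‖ ^ 2 < (1 / 4) ^ 2 := by nlinarith [sq_nonneg ‖w1‖, sq_nonneg ‖w3‖]
  have h4' : ‖w4‖ < 1 / 4 := lt_of_pow_lt_pow_left₀ 2 (by norm_num) h4
  have h2 : ‖w2‖ ≤ 1 := by
    have : ‖w2‖ ^ 2 ≤ 1 ^ 2 := by nlinarith [sq_nonneg ‖w1‖, sq_nonneg ‖w3‖, sq_nonneg ‖w4‖]
    exact le_of_sq_le_sq this (by norm_num)
  have hn : ‖w2‖ ^ 2 ≤ 2 * ‖w4‖ + 4 * (‖w3‖ * ‖w1‖) + 2 * (‖w2‖ * ‖w1‖ ^ 2) := by
    calc ‖w2‖ ^ 2 = ‖w2 ^ 2‖ := (norm_pow _ _).symm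
      _ = ‖2 * w4 - 4 * w3 * w1 + 2 * w2 * w1 ^ 2‖ := by rw [hrel]
      _ ≤ ‖2 * w4 - 4 * w3 * w1‖ + ‖2 * w2 * w1 ^ 2‖ := norm_add_le _ _
      _ ≤ ‖2 * w4‖ + ‖4 * w3 * w1‖ + ‖2 * w2 * w1 ^ 2‖ := by
          gcongr; exact norm_sub_le _ _
      _ = _ := by
          simp only [norm_mul, norm_pow, RCLike.norm_ofNat]; ring
  have e1 : ‖w2‖ * ‖w1‖ ^ 2 ≤ ‖w1‖ ^ 2 := by nlinarith [sq_nonneg ‖w1‖]
  have e2 : 2 * (‖w3‖ * ‖w1‖) ≤ ‖w1‖ ^ 2 + ‖w3‖ ^ 2 := by nlinarith [sq_nonneg (‖w1‖ - ‖w3‖)]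
  nlinarith [norm_nonneg w1, norm_nonneg w3, sq_nonneg ‖w1‖, sq_nonneg ‖w3‖, sq_nonneg ‖w4‖]

theorem coeff_deriv (G : ℂ → ℂ) (n : ℕ) : coeff (deriv G) n = (n + 1) * coeff G (n + 1) := by
  unfold coeff
  rw [iteratedDeriv_succ', Nat.factorial_succ]
  have h1 : ((n.factorial : ℕ) : ℂ) ≠ 0 := by exact_mod_cast n.factorial_ne_zero
  have h2 : ((n : ℂ) + 1) ≠ 0 := by exact_mod_cast n.succ_ne_zero
  push_cast
  field_simp

theorem conv_zero (a b : ℕ → ℂ) : conv a b 0 = a 0 * b 0 := by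
  simp [conv]

theorem conv_one (a b : ℕ → ℂ) : conv a b 1 = a 0 * b 1 + a 1 * b 0 := by
  simp [conv, Finset.Nat.antidiagonal_succ]

theorem conv_two (a b : ℕ → ℂ) : conv a b 2 = a 0 * b 2 + a 1 * b 1 + a 2 * b 0 := by
  simp [conv, Finset.Nat.antidiagonal_succ]; ring

theorem conv_three (a b : ℕ → ℂ) :
    conv a b 3 = a 0 * b 3 + a 1 * b 2 + a 2 * b 1 + a 3 * b 0 := by
  simp [conv, Finset.Nat.antidiagonal_succ]; ring

theorem conv_four (a b : ℕ → ℂ) :
    conv a b 4 = a 0 * b 4 + a 1 * b 3 + a 2 * b 2 + a 3 * b 1 + a 4 * b 0 := by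
  simp [conv, Finset.Nat.antidiagonal_succ]; ring

/-- the estimate for a single function of the class -/
theorem main {f : ℂ → ℂ} (hf : f ∈ M (4 / 3) (-1 / 3)) : ‖Phi f 1‖ ≤ 3 / 8 * √15 := by
  obtain ⟨hd, hf0, hf1, hne', -, hre⟩ := hf
  have hne := hne' (by norm_num)
  have hball : ball (0 : ℂ) 1 ∈ nhds (0 : ℂ) := ball_mem_nhds _ one_pos
  set F : ℂ → ℂ := dslope f 0 with hF
  have hFd : DifferentiableOn ℂ F (ball 0 1) := (Complex.differentiableOn_dslope hball).mpr hd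
  have hF0 : F 0 = 1 := by rw [hF, dslope_same, hf1]
  have hfF : ∀ z, f z = z * F z := by
    intro z
    by_cases hz : z = 0
    · rw [hz, hf0, zero_mul]
    · rw [hF, dslope_of_ne _ hz, slope_def_field, hf0]
      field_simp
      ring
  have hFne : ∀ z ∈ ball (0 : ℂ) 1, F z ≠ 0 := by
    intro z hz
    by_cases h0 : z = 0
    · rw [h0, hF0]; exact one_ne_zero
    · intro h
      apply hne z hz h0
      rw [hfF, h, mul_zero]
  set G : ℂ → ℂ := fun z => (F z)⁻¹ with hG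
  have hGd : DifferentiableOn ℂ G (ball 0 1) := hFd.inv hFne
  have hG'd : DifferentiableOn ℂ (deriv G) (ball 0 1) := hGd.deriv isOpen_ball
  -- the key relation between `G` and `gfun`
  have hrel : ∀ z ∈ ball (0 : ℂ) 1,
      4 - G z + z * deriv G z = 3 * G z * gfun (4 / 3) (-1 / 3) f z := by
    intro z hz
    have hFz := hFne z hz
    have hFat : DifferentiableAt ℂ F z := hFd.differentiableAt (isOpen_ball.mem_nhds hz)
    have hG' : deriv G z = -deriv F z / (F z) ^ 2 := by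
      rw [hG]; exact (hFat.hasDerivAt.fun_inv hFz).deriv
    by_cases h0 : z = 0
    · rw [h0, gfun, if_pos rfl, hG]
      simp only [hF0]
      norm_num
    · have hf' : deriv f z = F z + z * deriv F z := by
        have h1 : f = fun z => z * F z := funext hfF
        rw [h1]
        have := ((hasDerivAt_id' z).fun_mul hFat.hasDerivAt).deriv
        rw [this, one_mul]
      rw [gfun, if_neg h0, hG', hf', hfF z, hG]
      push_cast
      have e0 : (1 - (4 / 3 : ℂ) - -1 / 3) = 0 := by norm_num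
      rw [e0, zero_mul, add_zero]
      field_simp
      ring
  set N : ℂ → ℂ := fun z => (4 + (-4) * G z) + z * deriv G z with hN
  set D : ℂ → ℂ := fun z => (4 + (-1) * G z) + z * deriv G z with hD
  have hDz : ∀ z ∈ ball (0 : ℂ) 1, D z = 3 * G z * gfun (4 / 3) (-1 / 3) f z := by
    intro z hz
    rw [hD, ← hrel z hz]; ring
  have hNz : ∀ z ∈ ball (0 : ℂ) 1, N z = 3 * G z * (gfun (4 / 3) (-1 / 3) f z - 1) := by
    intro z hz
    have := hrel z hz
    rw [hN]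
    linear_combination this
  have hg : ∀ z ∈ ball (0 : ℂ) 1, 1 / 2 < (gfun (4 / 3) (-1 / 3) f z).re := by
    intro z hz
    have := hre z hz
    norm_num at this ⊢
    exact this
  have hDne : ∀ z ∈ ball (0 : ℂ) 1, D z ≠ 0 := by
    intro z hz
    rw [hDz z hz]
    refine mul_ne_zero (mul_ne_zero (by norm_num) (inv_ne_zero (hFne z hz))) ?_
    intro h
    have := hg z hz
    rw [h] at this
    simp at this
    linarith
  have hzG' : DifferentiableOn ℂ (fun z => z * deriv G z) (ball 0 1) :=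
    differentiableOn_id.mul hG'd
  have hDd : DifferentiableOn ℂ D (ball 0 1) :=
    ((differentiableOn_const _).add (hGd.const_mul _)).add hzG'
  have hNd : DifferentiableOn ℂ N (ball 0 1) :=
    ((differentiableOn_const _).add (hGd.const_mul _)).add hzG'
  set W : ℂ → ℂ := fun z => N z / D z with hW
  have hWd : DifferentiableOn ℂ W (ball 0 1) := hNd.div hDd hDne
  have hWb : ∀ z : ℂ, ‖z‖ < 1 → ‖W z‖ ≤ 1 := by
    intro z hz'
    have hz : z ∈ ball (0 : ℂ) 1 := by simpa using hz'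
    rw [hW]
    simp only
    rw [norm_div]
    apply div_le_one_of_le₀ _ (norm_nonneg _)
    rw [hNz z hz, hDz z hz, norm_mul (3 * G z), norm_mul (3 * G z)]
    apply mul_le_mul_of_nonneg_left _ (norm_nonneg _)
    have h1 := hg z hz
    rw [← abs_norm (gfun (4 / 3) (-1 / 3) f z - 1), ← abs_norm (gfun (4 / 3) (-1 / 3) f z),
      ← sq_le_sq, ← normSq_eq_norm_sq, ← normSq_eq_norm_sq, normSq_apply, normSq_apply]
    simp only [sub_re, one_re, sub_im, one_im]
    nlinarith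
  -- power series
  have pF : PS F (coeff F) := PS.of_diff hFd
  have pG : PS G (coeff G) := PS.of_diff hGd
  have pG' : PS (deriv G) (coeff (deriv G)) := PS.of_diff hG'd
  have pf : PS f (coeff f) := PS.of_diff hd
  have pW : PS W (coeff W) := PS.of_diff hWd
  have pN : PS N (fun n => ((if n = 0 then (4 : ℂ) else 0) + (-4) * coeff G n)
      + shiftSeq (coeff (deriv G)) n) :=
    ((PS.const 4).add (pG.const_mul (-4))).add pG'.shift
  have pD : PS D (fun n => ((if n = 0 then (4 : ℂ) else 0) + (-1) * coeff G n)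
      + shiftSeq (coeff (deriv G)) n) :=
    ((PS.const 4).add (pG.const_mul (-1))).add pG'.shift
  have hcf : coeff f = shiftSeq (coeff F) :=
    pf.unique (pF.shift.congr (fun z _ => hfF z))
  have hFG : conv (coeff F) (coeff G) = fun n => if n = 0 then (1 : ℂ) else 0 := by
    refine (pF.mul pG).unique ((PS.const 1).congr (fun z hz => ?_))
    have := hFne z (by simpa using hz)
    rw [hG]
    field_simp
  have hWD := (pW.mul pD).unique (pN.congr (fun z hz => by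
    have := hDne z (by simpa using hz)
    rw [hW]
    field_simp))
  obtain ⟨w, hw⟩ : ∃ w, w = coeff W := ⟨_, rfl⟩
  obtain ⟨g, hgg⟩ : ∃ g, g = coeff G := ⟨_, rfl⟩
  obtain ⟨u, hu⟩ : ∃ u, u = coeff F := ⟨_, rfl⟩
  rw [← hw, ← hgg] at hWD
  rw [← hu, ← hgg] at hFG
  have c0 := congrFun hFG 0
  have c1 := congrFun hFG 1
  have c2 := congrFun hFG 2
  have d0 := congrFun hWD 0
  have d1 := congrFun hWD 1
  have d2 := congrFun hWD 2
  have d3 := congrFun hWD 3
  have d4 := congrFun hWD 4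
  have hu0 : u 0 = 1 := by rw [hu]; simp [coeff, hF0]
  simp only [conv_zero, conv_one, conv_two, conv_three, conv_four, shiftSeq, coeff_deriv,
    ← hgg] at c0 c1 c2 d0 d1 d2 d3 d4
  norm_num at c0 c1 c2 d0 d1 d2 d3 d4
  rw [hu0] at c0 c1 c2
  have hg0 : g 0 = 1 := by simpa using c0
  rw [hg0] at c1 c2 d0 d1 d2 d3 d4
  have hw0 : w 0 = 0 := by
    have : w 0 * 3 = 0 := by linear_combination d0
    simpa using this
  rw [hw0] at d2 d3 d4
  have e1 : g 1 = -w 1 := by linear_combination (1 / 3 : ℂ) * d1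
  have e2 : g 2 = -(3 / 2) * w 2 := by
    linear_combination (1 / 2 : ℂ) * d2
  have e3 : g 3 = -3 * w 3 + (3 / 2) * w 2 * w 1 := by
    rw [e2] at d3
    linear_combination d3
  have e4 : w 2 ^ 2 = 2 * w 4 - 4 * w 3 * w 1 + 2 * w 2 * w 1 ^ 2 := by
    rw [e2, e3] at d4
    linear_combination (-(2 / 3) : ℂ) * d4
  have hsum := pW.sum_sq_le_one hWd hWb 5
  rw [← hw] at hsum
  simp only [Finset.sum_range_succ, Finset.sum_range_zero, hw0, norm_zero] at hsum
  have hkey := key_ineq e4 (by nlinarith)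
  have hPhi : Phi f 1 = (3 / 2) * w 2 := by
    have h3 : iteratedDeriv 3 f 0 / (Nat.factorial 3 : ℂ) = u 2 := by
      have := congrFun hcf 3
      rw [← hu] at this
      exact this
    have h2 : iteratedDeriv 2 f 0 / (Nat.factorial 2 : ℂ) = u 1 := by
      have := congrFun hcf 2
      rw [← hu] at this
      exact this
    rw [Phi, h3, h2]
    have hu1 : u 1 = -g 1 := by linear_combination c1
    have hu2 : u 2 = g 1 ^ 2 - g 2 := by
      rw [hu1] at c2
      linear_combination c2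
    rw [hu2, hu1, e2]
    ring
  rw [hPhi, norm_mul]
  have hn : ‖(3 / 2 : ℂ)‖ = 3 / 2 := by norm_num
  rw [hn]
  have h5 : ‖w 2‖ ≤ √15 / 4 := by
    apply le_of_sq_le_sq _ (by positivity)
    rw [div_pow, Real.sq_sqrt (by norm_num)]
    norm_num
    exact hkey
  linarith

/-- **Disproof of Q1.** Let `(α, β) = (4/3, -1/3)` and `λ = 1`. Then `(α, β)` lies in `R`, the
bound is `max(μ, |1-λ|) = 3/2`, and `|Φ(f, λ)| ≤ (3/8) √15 < 3/2` for all `f` in `M_{α,β}`. -/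
theorem result : InR (4 / 3) (-1 / 3) ∧ max (mu (4 / 3) (-1 / 3)) ‖(1 : ℂ) - 1‖ = 3 / 2 ∧
    3 / 8 * √15 < (3 / 2 : ℝ) ∧ ∀ f ∈ M (4 / 3) (-1 / 3), ‖Phi f 1‖ ≤ 3 / 8 * √15 := by
  have h2 : mu (4 / 3) (-1 / 3) = 3 / 2 := by unfold mu; norm_num
  refine ⟨⟨by norm_num, by norm_num⟩, ?_, ?_, fun f hf => main hf⟩
  · rw [h2, sub_self, norm_zero]
    exact max_eq_left (by norm_num)
  · have h1 : √15 < 4 := by
      rw [Real.sqrt_lt' (by norm_num)]; norm_num
    linarith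

end Pool.Agent.Results.MP_dfd3b8_an.FeketeSzegoNotSharp
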